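import Mathlib
import Pool.Agent.H294UB.Final
import Pool.Agent.H294UB.Loc
import Pool.Agent.H294UB.Inj
import Pool.Agent.H294UB.Iter
import Pool.Agent.H294UB.Tail
import Pool.Agent.H294UB.Perm
import Pool.Agent.H294UB.Res
import Pool.Agent.H294UB.Abs
import Pool.Agent.H294UB.Norm
import Pool.Agent.H294UB.It
import Pool.Agent.H294UB.NF
import Pool.Agent.H294UB.Mon
import Pool.Agent.H294UB.Lift
import Pool.Agent.H294UB.Fib
import Pool.Agent.H294UB.Cnt

/-!
# Uniform boundedness of preperiodic points for a positive proportion of the endomorphisms of `P^N`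

Definitions:
* `Box n d H` (`Pool.Agent.H927R2.RD`): the `n`-tuples of forms of degree `d` in `n` variables over
  `ℤ` with coefficients of absolute value at most `H`;
* `selfMap K F` (below): the self-map of `K^(N+1)` given by the integral system `F`;
* `Bounded C F` (below): `F` has no common zero in `ℂ^(N+1)` except `0`, and for all `D` and all
  number fields `K` of degree at most `D`, every finite set of pairwise non proportional non zero
  vectors of `K^(N+1)` whose points of `P^N(K)` are preperiodic has at most `C D` elements.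
-/

set_option autoImplicit false

open MvPolynomial Pool.Agent.H927R2.RD

namespace Pool.Agent.Results.MP_13bc7b_nt.PositiveProportion

/-- The self-map of `K^(N+1)` given by the integral forms `F`. -/
noncomputable def selfMap (K : Type) [CommRing K] {N : ℕ}
    (F : Fin (N + 1) → MvPolynomial (Fin (N + 1)) ℤ) (x : Fin (N + 1) → K) : Fin (N + 1) → K :=
  fun i => eval x (map (Int.castRingHom K) (F i))

/-- `F` defines an endomorphism of `P^N`, and for all `D` and all number fields `K` of degree at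
most `D` this endomorphism has at most `C D` preperiodic points in `P^N(K)`. -/
def Bounded {N : ℕ} (C : ℕ → ℕ) (F : Fin (N + 1) → MvPolynomial (Fin (N + 1)) ℤ) : Prop :=
  (∀ x : Fin (N + 1) → ℂ, selfMap ℂ F x = 0 → x = 0) ∧
    ∀ (D : ℕ) (K : Type) [Field K] [NumberField K], Module.finrank ℚ K ≤ D →
      ∀ X : Finset (Fin (N + 1) → K), (∀ x ∈ X, x ≠ 0) →
        (∀ x ∈ X, ∀ y ∈ X, ∀ c : K, x = c • y → x = y) →
        (∀ x ∈ X, ∃ m n : ℕ, m < n ∧ ∃ c : K, c ≠ 0 ∧
          (selfMap K F)^[n] x = c • (selfMap K F)^[m] x) → X.card ≤ C D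

/-- **Uniform boundedness for a positive proportion of the endomorphisms of `P^N`.**
Let `N` be any dimension, `d ≥ 2` any degree and `M ≥ 1`. There are constants `C D` (`D = 1, 2, …`)
such that, in every residue class `A` modulo `M` and in every real cell (`F / H` at distance at most
`ε` from a given real system `B` with coefficients in `[-1, 1]`), a positive proportion of the
integral systems of `N + 1` forms of degree `d` with coefficients at most `H` define endomorphisms of
`P^N` with at most `C D` preperiodic points in `P^N(K)`, for all number fields `K` of degree at most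
`D` and all `D`. -/
theorem result (N d : ℕ) (hd : 2 ≤ d) (M : ℕ) (hM : 0 < M) : ∃ C : ℕ → ℕ,
    ∀ A : Fin (N + 1) → MvPolynomial (Fin (N + 1)) ℤ, (∀ i, (A i).IsHomogeneous d) →
    ∀ B : Fin (N + 1) → MvPolynomial (Fin (N + 1)) ℝ, (∀ i, (B i).IsHomogeneous d) →
    (∀ i μ, |coeff μ (B i)| ≤ 1) → ∀ ε : ℝ, 0 < ε →
    ∃ δ : ℝ, 0 < δ ∧ ∃ H₀ : ℕ, ∀ H : ℕ, H₀ ≤ H →
      δ * ((Box (N + 1) d H).ncard : ℝ) ≤
        (({F | F ∈ Box (N + 1) d H ∧
          (∀ i μ, (M : ℤ) ∣ coeff μ (F i) - coeff μ (A i)) ∧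
          (∀ i μ, |((coeff μ (F i) : ℤ) : ℝ) - H * coeff μ (B i)| ≤ ε * H) ∧ Bounded C F} :
          Set (Fin (N + 1) → MvPolynomial (Fin (N + 1)) ℤ)).ncard : ℝ) := by
  obtain ⟨C, hC⟩ := H294UB.Asm.final H294UB.taskLoc (H294UB.taskTail (H294UB.taskIter H294UB.taskInj))
    (H294UB.taskPerm (H294UB.taskIter H294UB.taskInj)) H294UB.taskRes
    (H294UB.taskNorm H294UB.taskAbs) H294UB.taskIt H294UB.taskNF (H294UB.taskCnt H294UB.taskFib)
    H294UB.taskMon H294UB.taskLift N d hd M hM
  refine ⟨C, fun A hA B hB hB1 ε hε => ?_⟩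
  obtain ⟨δ, hδ, H₀, hH⟩ := hC A hA B hB hB1 ε hε
  refine ⟨δ, hδ, H₀, fun H hH' => (hH H hH').trans ?_⟩
  have hfin : ({F | F ∈ Box (N + 1) d H ∧
      (∀ i μ, (M : ℤ) ∣ coeff μ (F i) - coeff μ (A i)) ∧
      (∀ i μ, |((coeff μ (F i) : ℤ) : ℝ) - H * coeff μ (B i)| ≤ ε * H) ∧ Bounded C F} :
      Set (Fin (N + 1) → MvPolynomial (Fin (N + 1)) ℤ)).Finite :=
    (H294DM.box_finite (N + 1) d H).subset fun F hF => hF.1
  have hsub : ({F | F ∈ Box (N + 1) d H ∧
      (∀ i μ, (M : ℤ) ∣ coeff μ (F i) - coeff μ (A i)) ∧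
      (∀ i μ, |((coeff μ (F i) : ℤ) : ℝ) - H * coeff μ (B i)| ≤ ε * H) ∧ H294UB.Asm.Bdd C F} :
      Set (Fin (N + 1) → MvPolynomial (Fin (N + 1)) ℤ)) ⊆
      {F | F ∈ Box (N + 1) d H ∧
      (∀ i μ, (M : ℤ) ∣ coeff μ (F i) - coeff μ (A i)) ∧
      (∀ i μ, |((coeff μ (F i) : ℤ) : ℝ) - H * coeff μ (B i)| ≤ ε * H) ∧ Bounded C F} :=
    fun F hF => ⟨hF.1, hF.2.1, hF.2.2.1, fun x hx => hF.2.2.2.1 x (congrFun hx), hF.2.2.2.2⟩
  exact_mod_cast Set.ncard_le_ncard hsub hfin

end Pool.Agent.Results.MP_13bc7b_nt.PositiveProportion
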